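import Pool.Agent.W973.SRR.Defs

set_option autoImplicit false

namespace Pool.Agent.W848.SRR

open Pool.Agent.W973.SRR Pool.Agent.NPC

section
variable {ψ : CNF} {T : ℕ → Bool}

/-! ### Coordinates -/

lemma ot_mod (l : ℕ) : 2 ≤ ot ψ l % 8 := by
  unfold ot aP aQ; split_ifs <;> omega

lemma inn_mod (l : ℕ) : 2 ≤ inn ψ l % 8 := by
  unfold inn aP aQ; split_ifs <;> omega

lemma cnP_mod (l : ℕ) : 2 ≤ cnP ψ l % 8 := by
  unfold cnP; split_ifs
  · exact ot_mod _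
  · exact inn_mod _

lemma cnQ_mod (l : ℕ) : 2 ≤ cnQ ψ l % 8 := by
  unfold cnQ; split_ifs
  · exact inn_mod _
  · exact ot_mod _

lemma pr_nr (i : ℕ) : pr (nr i) = i := by unfold pr nr; omega
lemma nr_pr (i : ℕ) : nr (pr i) = i := by unfold pr nr; omega

/-! ### Scores at `aV`, `aW` -/

lemma scVW (c : ℕ) : sc ψ T (8 * c) (8 * c + 1) = 4 := by simp [sc]

lemma scWV (c : ℕ) : sc ψ T (8 * c + 1) (8 * c) = 4 := by
  have h1 : (8 * c + 1) % 8 = 1 := by omega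
  simp [sc, h1]

lemma scV (c r : ℕ) (hr : r < 3) : sc ψ T (8 * c) (8 * c + 2 * r + 2) =
    (if T (3 * c + r) = true then (if T (pr (3 * c + r)) = true then 6 else 5)
      else (if T (pr (3 * c + r)) = true then 3 else 2)) := by
  have h0 : (8 * c) % 8 = 0 := by omega
  have h1 : ¬ (8 * c + 2 * r + 2 = 8 * c + 1) := by omega
  have h2 : ((8 * c + 2 * r + 2) / 8 = 8 * c / 8 ∧ (8 * c + 2 * r + 2) % 8 ≠ 0 ∧
    (8 * c + 2 * r + 2) % 2 = 0) := by omega
  have h3 : 3 * ((8 * c + 2 * r + 2) / 8) + ((8 * c + 2 * r + 2) % 8) / 2 - 1 = 3 * c + r := by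
    omega
  unfold sc
  rw [if_pos h0, if_neg h1, if_pos h2, h3]

lemma scW (c r : ℕ) (hr : r < 3) : sc ψ T (8 * c + 1) (8 * c + 2 * r + 3) =
    (if T (nr (3 * c + r)) = true then (if T (pr (3 * c + r)) = true then 2 else 3)
      else (if T (pr (3 * c + r)) = true then 5 else 6)) := by
  have h0 : ¬ (8 * c + 1) % 8 = 0 := by omega
  have h0' : (8 * c + 1) % 8 = 1 := by omega
  have h1 : ¬ (8 * c + 2 * r + 3 + 1 = 8 * c + 1) := by omega
  have h2 : ((8 * c + 2 * r + 3) / 8 = (8 * c + 1) / 8 ∧ (8 * c + 2 * r + 3) % 8 ≠ 1 ∧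
    (8 * c + 2 * r + 3) % 2 = 1) := by omega
  have h3 : 3 * ((8 * c + 2 * r + 3) / 8) + ((8 * c + 2 * r + 3) % 8) / 2 - 1 = 3 * c + r := by
    omega
  unfold sc
  rw [if_neg h0, if_pos h0', if_neg h1, if_pos h2, h3]

/-- nonzero scores at `aV c`. -/
lemma scV_ne (c b : ℕ) (h : sc ψ T (8 * c) b ≠ 0) :
    b = 8 * c + 1 ∨ ∃ r < 3, b = 8 * c + 2 * r + 2 := by
  have h0 : (8 * c) % 8 = 0 := by omega
  unfold sc at h
  rw [if_pos h0] at h
  by_cases h1 : b = 8 * c + 1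
  · exact Or.inl h1
  · rw [if_neg h1] at h
    by_cases h2 : b / 8 = 8 * c / 8 ∧ b % 8 ≠ 0 ∧ b % 2 = 0
    · refine Or.inr ⟨(b % 8) / 2 - 1, ?_, ?_⟩ <;> omega
    · rw [if_neg h2] at h
      exact absurd rfl h

lemma scW_ne (c b : ℕ) (h : sc ψ T (8 * c + 1) b ≠ 0) :
    b = 8 * c ∨ ∃ r < 3, b = 8 * c + 2 * r + 3 := by
  have h0 : ¬ (8 * c + 1) % 8 = 0 := by omega
  have h0' : (8 * c + 1) % 8 = 1 := by omega
  unfold sc at h
  rw [if_neg h0, if_pos h0'] at h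
  by_cases h1 : b + 1 = 8 * c + 1
  · exact Or.inl (by omega)
  · rw [if_neg h1] at h
    by_cases h2 : b / 8 = (8 * c + 1) / 8 ∧ b % 8 ≠ 1 ∧ b % 2 = 1
    · refine Or.inr ⟨(b % 8) / 2 - 1, ?_, ?_⟩ <;> omega
    · rw [if_neg h2] at h
      exact absurd rfl h

/-! ### Scores at the terminals -/

lemma scP_def (i b : ℕ) : sc ψ T (aP i) b =
    (if b = aQ i then 4 else if b = aV (i / 3) then (if T i = true then 3 else 5)
      else if b = cnP ψ i then (if T (nr i) = true then 2 else 6) else 0) := by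
  have h0 : ¬ (aP i) % 8 = 0 := by unfold aP; omega
  have h1 : ¬ (aP i) % 8 = 1 := by unfold aP; omega
  have h2 : (aP i) % 2 = 0 := by unfold aP; omega
  have h3 : 3 * (aP i / 8) + (aP i % 8) / 2 - 1 = i := by unfold aP; omega
  have h4 : aP i / 8 = i / 3 := by unfold aP; omega
  have h5 : aP i + 1 = aQ i := by unfold aP aQ; omega
  unfold sc
  rw [if_neg h0, if_neg h1, if_pos h2, h3, h4, h5]

lemma scQ_def (i b : ℕ) : sc ψ T (aQ i) b =
    (if b = aP i then 4 else if b = cnQ ψ i then (if T i = true then 6 else 2)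
      else if b = aW (i / 3) then (if T (nr i) = true then 5 else 3) else 0) := by
  have h0 : ¬ (aQ i) % 8 = 0 := by unfold aQ; omega
  have h1 : ¬ (aQ i) % 8 = 1 := by unfold aQ; omega
  have h2 : ¬ (aQ i) % 2 = 0 := by unfold aQ; omega
  have h3 : 3 * (aQ i / 8) + (aQ i % 8) / 2 - 1 = i := by unfold aQ; omega
  have h4 : aQ i / 8 = i / 3 := by unfold aQ; omega
  have h5 : (b + 1 = aQ i) = (b = aP i) := by
    apply propext; unfold aP aQ; omega
  unfold sc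
  rw [if_neg h0, if_neg h1, if_neg h2, h3, h4]
  simp only [h5]

lemma scPQ (i : ℕ) : sc ψ T (aP i) (aQ i) = 4 := by rw [scP_def, if_pos rfl]
lemma scQP (i : ℕ) : sc ψ T (aQ i) (aP i) = 4 := by rw [scQ_def, if_pos rfl]

lemma scPV (i : ℕ) : sc ψ T (aP i) (aV (i / 3)) = if T i = true then 3 else 5 := by
  rw [scP_def, if_neg (by unfold aV aQ; omega), if_pos rfl]

lemma scQW (i : ℕ) : sc ψ T (aQ i) (aW (i / 3)) = if T (nr i) = true then 5 else 3 := by
  have := cnQ_mod (ψ := ψ) i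
  rw [scQ_def, if_neg (by unfold aW aP; omega), if_neg (by
    intro h; rw [← h] at this; unfold aW at this; omega), if_pos rfl]

lemma scPc (i : ℕ) (h : cnP ψ i ≠ aQ i) :
    sc ψ T (aP i) (cnP ψ i) = if T (nr i) = true then 2 else 6 := by
  have := cnP_mod (ψ := ψ) i
  rw [scP_def, if_neg h, if_neg (by
    intro h; rw [h] at this; unfold aV at this; omega), if_pos rfl]

lemma scQc (i : ℕ) (h : cnQ ψ i ≠ aP i) :
    sc ψ T (aQ i) (cnQ ψ i) = if T i = true then 6 else 2 := by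
  rw [scQ_def, if_neg h, if_pos rfl]

end

/-! ### The connections -/

/-- `a` is a terminal connected with `b`, and it is down iff `d`. -/
def E (ψ : CNF) (T : ℕ → Bool) (a b : ℕ) (d : Bool) : Prop :=
  (∃ i < NO ψ, a = aP i ∧ b = cnP ψ i ∧ d = T (nr i)) ∨
  (∃ i < NO ψ, a = aQ i ∧ b = cnQ ψ i ∧ d = !T i)

variable {ψ : CNF} {τ : ℕ → Bool} {T : ℕ → Bool}

lemma E1 (h1 : S_BAS) (hD : Distinct3 ψ)
    (hT : ∀ i, T i = decide (τ (vv ψ i) = (lit ψ i).1)) (l : ℕ) (hl : l < NO ψ) :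
    E ψ T (ot ψ l) (inn ψ (nxt ψ l)) (!τ (vv ψ l)) := by
  obtain ⟨-, -, hb⟩ := h1 ψ
  have hpl := (hb hD l hl).2.1
  have hTl := hT l
  unfold ot
  split_ifs with hs
  · right
    refine ⟨l, hl, rfl, ?_, ?_⟩
    · unfold cnQ; rw [if_pos hs]
    · rw [hTl, hs]; cases τ (vv ψ l) <;> simp
  · left
    refine ⟨pr l, hpl, rfl, ?_, ?_⟩
    · unfold cnP; rw [nr_pr, if_neg hs]
    · rw [nr_pr, hTl]
      have hs' : (lit ψ l).1 = false := by simpa using hs
      rw [hs']; cases τ (vv ψ l) <;> simp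

lemma E2 (h1 : S_BAS) (hD : Distinct3 ψ)
    (hT : ∀ i, T i = decide (τ (vv ψ i) = (lit ψ i).1)) (l : ℕ) (hl : l < NO ψ) :
    E ψ T (inn ψ l) (ot ψ (prv ψ l)) (τ (vv ψ l)) := by
  obtain ⟨-, -, hb⟩ := h1 ψ
  have hpl := (hb hD l hl).2.1
  have hTl := hT l
  unfold inn
  split_ifs with hs
  · left
    refine ⟨pr l, hpl, rfl, ?_, ?_⟩
    · unfold cnP; rw [nr_pr, if_pos hs]
    · rw [nr_pr, hTl, hs]; cases τ (vv ψ l) <;> simp
  · right
    refine ⟨l, hl, rfl, ?_, ?_⟩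
    · unfold cnQ; rw [if_neg hs]
    · rw [hTl]
      have hs' : (lit ψ l).1 = false := by simpa using hs
      rw [hs']; cases τ (vv ψ l) <;> simp

/-- Every connection is of the form `ot l`, `inn (nxt l)`. -/
lemma E3 (h1 : S_BAS) (h2 : S_OCC) (hD : Distinct3 ψ)
    (hT : ∀ i, T i = decide (τ (vv ψ i) = (lit ψ i).1)) (a b : ℕ) (d : Bool)
    (h : E ψ T a b d) : E ψ T b a (!d) := by
  obtain ⟨ho, -⟩ := h2 ψ
  obtain ⟨-, -, hb⟩ := h1 ψ
  -- key: for each l, both orders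
  have key1 : ∀ l < NO ψ, E ψ T (inn ψ (nxt ψ l)) (ot ψ l) (τ (vv ψ l)) := by
    intro l hl
    have := E2 h1 hD hT (nxt ψ l) (ho l hl).1
    rw [(ho l hl).2.2.2.2.1, (ho l hl).2.2.1] at this
    exact this
  have key2 : ∀ l < NO ψ, E ψ T (ot ψ (prv ψ l)) (inn ψ l) (!τ (vv ψ l)) := by
    intro l hl
    have := E1 h1 hD hT (prv ψ l) (ho l hl).2.1
    rw [(ho l hl).2.2.2.2.2, (ho l hl).2.2.2.1] at this
    exact this
  rcases h with ⟨i, hi, rfl, rfl, rfl⟩ | ⟨i, hi, rfl, rfl, rfl⟩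
  · have hnl := (hb hD i hi).1
    have hTl := hT (nr i)
    unfold cnP
    split_ifs with hs
    · have := key2 (nr i) hnl
      unfold inn at this
      rw [if_pos hs, pr_nr] at this
      rw [hTl, hs]
      convert this using 2
      cases τ (vv ψ (nr i)) <;> simp
    · have := key1 (nr i) hnl
      have hs' : (lit ψ (nr i)).1 = false := by simpa using hs
      unfold ot at this
      rw [if_neg hs, pr_nr] at this
      rw [hTl, hs']
      convert this using 2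
      cases τ (vv ψ (nr i)) <;> simp
  · have hTl := hT i
    unfold cnQ
    split_ifs with hs
    · have := key1 i hi
      unfold ot at this
      rw [if_pos hs] at this
      rw [hTl, hs]
      convert this using 2
      cases τ (vv ψ i) <;> simp
    · have := key2 i hi
      have hs' : (lit ψ i).1 = false := by simpa using hs
      unfold inn at this
      rw [if_neg hs] at this
      rw [hTl, hs']
      convert this using 2
      cases τ (vv ψ i) <;> simp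

/-! ### Partners -/

lemma mtV (c : ℕ) (o : Option ℕ) : mt ψ o (8 * c) =
    (if o = some (vv ψ (3 * c)) then aP (3 * c)
    else if o = some (vv ψ (3 * c + 1)) then aP (3 * c + 1)
    else if o = some (vv ψ (3 * c + 2)) then aP (3 * c + 2)
    else 8 * c + 1) := by
  have h0 : (8 * c) % 8 = 0 := by omega
  have h1 : (8 * c) / 8 = c := by omega
  unfold Pool.Agent.W973.SRR.mt
  rw [if_pos h0, h1]

lemma mtW (c : ℕ) (o : Option ℕ) : mt ψ o (8 * c + 1) =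
    (if o = some (vv ψ (3 * c)) then aQ (3 * c + 2)
    else if o = some (vv ψ (3 * c + 1)) then aQ (3 * c)
    else if o = some (vv ψ (3 * c + 2)) then aQ (3 * c + 1)
    else 8 * c) := by
  have h0 : ¬ (8 * c + 1) % 8 = 0 := by omega
  have h0' : (8 * c + 1) % 8 = 1 := by omega
  have h1 : (8 * c + 1) / 8 = c := by omega
  have h2 : 8 * c + 1 - 1 = 8 * c := by omega
  unfold Pool.Agent.W973.SRR.mt
  rw [if_neg h0, if_pos h0', h1, h2]

lemma cnP_ne (h1 : S_BAS) (h3 : S_EV) (h5 : S_INV) (hD : Distinct3 ψ) (i : ℕ) (hi : i < NO ψ) :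
    cnP ψ i ≠ aQ i := by
  intro he
  obtain ⟨hNO, -, hb⟩ := h1 ψ
  have hne := (hb hD i hi).2.2.1
  have e := (h3 ψ hD).2.2 i hi (some (vv ψ (nr i)))
  have hne' : ¬ (some (vv ψ (nr i)) = some (vv ψ i)) := by
    intro h; exact hne (Option.some.inj h)
  rw [if_neg hne', if_neg hne', if_pos rfl, if_pos rfl] at e
  have hlt : aP i < 8 * ψ.length := by unfold aP; omega
  have := (h5 ψ hD (some (vv ψ (nr i)))).inv (aP i) hlt
  rw [e.1, he, e.2] at this
  unfold aW aP at this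
  omega

lemma cnQ_ne (h1 : S_BAS) (h3 : S_EV) (h5 : S_INV) (hD : Distinct3 ψ) (i : ℕ) (hi : i < NO ψ) :
    cnQ ψ i ≠ aP i := by
  intro he
  obtain ⟨hNO, -, hb⟩ := h1 ψ
  have e := (h3 ψ hD).2.2 i hi (some (vv ψ i))
  rw [if_pos rfl, if_pos rfl] at e
  have hlt : aQ i < 8 * ψ.length := by unfold aQ; omega
  have := (h5 ψ hD (some (vv ψ i))).inv (aQ i) hlt
  rw [e.2, he, e.1] at this
  unfold aV aQ at this
  omega

/-- A terminal which is down prefers all other partners to its connection. -/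
lemma down (h1 : S_BAS) (h3 : S_EV) (h5 : S_INV) (hD : Distinct3 ψ) (o : Option ℕ) (a b : ℕ)
    (h : E ψ T a b true) (hb : b ≠ mt ψ o a) : sc ψ T a b < sc ψ T a (mt ψ o a) := by
  rcases h with ⟨i, hi, rfl, rfl, hd⟩ | ⟨i, hi, rfl, rfl, hd⟩
  · have hc := cnP_ne h1 h3 h5 hD i hi
    have e := ((h3 ψ hD).2.2 i hi o).1
    rw [scPc i hc, ← hd, if_pos rfl]
    by_cases ho : o = some (vv ψ i)
    · rw [if_pos ho] at e
      rw [e, scPV]; split_ifs <;> omega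
    · rw [if_neg ho] at e
      by_cases ho' : o = some (vv ψ (nr i))
      · rw [if_pos ho'] at e
        exact absurd e.symm hb
      · rw [if_neg ho'] at e
        rw [e, scPQ]; omega
  · have hc := cnQ_ne h1 h3 h5 hD i hi
    have e := ((h3 ψ hD).2.2 i hi o).2
    have hd' : T i = false := by
      cases hT : T i
      · rfl
      · rw [hT] at hd; simp at hd
    rw [scQc i hc, hd', if_neg (by simp)]
    by_cases ho : o = some (vv ψ i)
    · rw [if_pos ho] at e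
      exact absurd e.symm hb
    · rw [if_neg ho] at e
      by_cases ho' : o = some (vv ψ (nr i))
      · rw [if_pos ho'] at e
        rw [e, scQW]; split_ifs <;> omega
      · rw [if_neg ho'] at e
        rw [e, scQP]; omega

/-! ### The clause -/

lemma nr0 (c : ℕ) : nr (3 * c) = 3 * c + 1 := by unfold nr; omega
lemma nr1 (c : ℕ) : nr (3 * c + 1) = 3 * c + 2 := by unfold nr; omega
lemma nr2 (c : ℕ) : nr (3 * c + 2) = 3 * c := by unfold nr; omega
lemma pr0 (c : ℕ) : pr (3 * c) = 3 * c + 2 := by unfold pr; omega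
lemma pr1 (c : ℕ) : pr (3 * c + 1) = 3 * c := by unfold pr; omega
lemma pr2 (c : ℕ) : pr (3 * c + 2) = 3 * c + 1 := by unfold pr; omega

lemma sV0 (c : ℕ) : sc ψ T (8 * c) (aP (3 * c)) =
    (if T (3 * c) = true then (if T (3 * c + 2) = true then 6 else 5)
      else (if T (3 * c + 2) = true then 3 else 2)) := by
  have := scV (ψ := ψ) (T := T) c 0 (by omega)
  rw [show aP (3 * c) = 8 * c + 2 * 0 + 2 by unfold aP; omega, this]
  simp only [Nat.add_zero, pr0]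

lemma sV1 (c : ℕ) : sc ψ T (8 * c) (aP (3 * c + 1)) =
    (if T (3 * c + 1) = true then (if T (3 * c) = true then 6 else 5)
      else (if T (3 * c) = true then 3 else 2)) := by
  have := scV (ψ := ψ) (T := T) c 1 (by omega)
  rw [show aP (3 * c + 1) = 8 * c + 2 * 1 + 2 by unfold aP; omega, this]
  simp only [pr1]

lemma sV2 (c : ℕ) : sc ψ T (8 * c) (aP (3 * c + 2)) =
    (if T (3 * c + 2) = true then (if T (3 * c + 1) = true then 6 else 5)
      else (if T (3 * c + 1) = true then 3 else 2)) := by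
  have := scV (ψ := ψ) (T := T) c 2 (by omega)
  rw [show aP (3 * c + 2) = 8 * c + 2 * 2 + 2 by unfold aP; omega, this]
  simp only [pr2]

lemma sW0 (c : ℕ) : sc ψ T (8 * c + 1) (aQ (3 * c)) =
    (if T (3 * c + 1) = true then (if T (3 * c + 2) = true then 2 else 3)
      else (if T (3 * c + 2) = true then 5 else 6)) := by
  have := scW (ψ := ψ) (T := T) c 0 (by omega)
  rw [show aQ (3 * c) = 8 * c + 2 * 0 + 3 by unfold aQ; omega, this]
  simp only [Nat.add_zero, pr0, nr0]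

lemma sW1 (c : ℕ) : sc ψ T (8 * c + 1) (aQ (3 * c + 1)) =
    (if T (3 * c + 2) = true then (if T (3 * c) = true then 2 else 3)
      else (if T (3 * c) = true then 5 else 6)) := by
  have := scW (ψ := ψ) (T := T) c 1 (by omega)
  rw [show aQ (3 * c + 1) = 8 * c + 2 * 1 + 3 by unfold aQ; omega, this]
  simp only [pr1, nr1]

lemma sW2 (c : ℕ) : sc ψ T (8 * c + 1) (aQ (3 * c + 2)) =
    (if T (3 * c) = true then (if T (3 * c + 1) = true then 2 else 3)
      else (if T (3 * c + 1) = true then 5 else 6)) := by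
  have := scW (ψ := ψ) (T := T) c 2 (by omega)
  rw [show aQ (3 * c + 2) = 8 * c + 2 * 2 + 3 by unfold aQ; omega, this]
  simp only [pr2, nr2]

lemma sPV (i c : ℕ) (h : i / 3 = c) : sc ψ T (aP i) (8 * c) = if T i = true then 3 else 5 := by
  subst h; exact scPV i

lemma sQW (i c : ℕ) (h : i / 3 = c) :
    sc ψ T (aQ i) (8 * c + 1) = if T (nr i) = true then 5 else 3 := by
  subst h; exact scQW i

lemma mP (h3 : S_EV) (hD : Distinct3 ψ) (o : Option ℕ) (i c : ℕ) (hi : i < NO ψ)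
    (h : i / 3 = c) : mt ψ o (aP i) = (if o = some (vv ψ i) then 8 * c
      else if o = some (vv ψ (nr i)) then cnP ψ i else aQ i) := by
  subst h; exact ((h3 ψ hD).2.2 i hi o).1

lemma mQ (h3 : S_EV) (hD : Distinct3 ψ) (o : Option ℕ) (i c : ℕ) (hi : i < NO ψ)
    (h : i / 3 = c) : mt ψ o (aQ i) = (if o = some (vv ψ i) then cnQ ψ i
      else if o = some (vv ψ (nr i)) then 8 * c + 1 else aP i) := by
  subst h; exact ((h3 ψ hD).2.2 i hi o).2

lemma core1 (c : ℕ) (o : Option ℕ) (h : 8 * c + 1 ≠ mt ψ o (8 * c)) :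
    4 < sc ψ T (8 * c) (mt ψ o (8 * c)) ∨ 4 < sc ψ T (8 * c + 1) (mt ψ o (8 * c + 1)) := by
  rw [mtV, mtW] at *
  split_ifs at h ⊢
  · rw [sV0, sW2]
    cases T (3 * c) <;> cases T (3 * c + 1) <;> cases T (3 * c + 2) <;> simp
  · rw [sV1, sW0]
    cases T (3 * c) <;> cases T (3 * c + 1) <;> cases T (3 * c + 2) <;> simp
  · rw [sV2, sW1]
    cases T (3 * c) <;> cases T (3 * c + 1) <;> cases T (3 * c + 2) <;> simp
  · exact absurd rfl h

lemma core4 (h1 : S_BAS) (h3 : S_EV) (h5 : S_INV) (hD : Distinct3 ψ) (i : ℕ) (hi : i < NO ψ)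
    (o : Option ℕ) (h : aQ i ≠ mt ψ o (aP i)) :
    4 < sc ψ T (aP i) (mt ψ o (aP i)) ∨ 4 < sc ψ T (aQ i) (mt ψ o (aQ i)) := by
  rw [mP h3 hD o i _ hi rfl] at *
  rw [mQ h3 hD o i _ hi rfl]
  split_ifs at h ⊢
  · rw [sPV i _ rfl, scQc i (cnQ_ne h1 h3 h5 hD i hi)]
    cases T i <;> simp
  · rw [sQW i _ rfl, scPc i (cnP_ne h1 h3 h5 hD i hi)]
    cases T (nr i) <;> simp
  · exact absurd rfl h

/-- The facts about the clause `c`. -/
structure CF (ψ : CNF) (T : ℕ → Bool) (c : ℕ) : Prop where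
  x01 : vv ψ (3 * c) ≠ vv ψ (3 * c + 1)
  x02 : vv ψ (3 * c) ≠ vv ψ (3 * c + 2)
  x12 : vv ψ (3 * c + 1) ≠ vv ψ (3 * c + 2)
  l0 : 3 * c < NO ψ
  l1 : 3 * c + 1 < NO ψ
  l2 : 3 * c + 2 < NO ψ
  nae : ¬ (T (3 * c) = T (3 * c + 1) ∧ T (3 * c + 1) = T (3 * c + 2))

lemma cf (h1 : S_BAS) (hD : Distinct3 ψ) (c : ℕ) (hc : c < ψ.length)
    (hn : ¬ (T (3 * c) = T (3 * c + 1) ∧ T (3 * c + 1) = T (3 * c + 2))) : CF ψ T c := by
  obtain ⟨hNO, -, hb⟩ := h1 ψ
  have l0 : 3 * c < NO ψ := by omega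
  have := hb hD (3 * c) l0
  rw [nr0, pr0] at this
  exact ⟨Ne.symm this.2.2.1, Ne.symm this.2.2.2.1, this.2.2.2.2, l0, this.1, this.2.1, hn⟩

lemma core2_0 (h1 : S_BAS) (h3 : S_EV) (h5 : S_INV) (hD : Distinct3 ψ) (c : ℕ) (hc : CF ψ T c)
    (o : Option ℕ) (h : aP (3 * c) ≠ mt ψ o (8 * c)) :
    sc ψ T (8 * c) (aP (3 * c)) < sc ψ T (8 * c) (mt ψ o (8 * c)) ∨
    sc ψ T (aP (3 * c)) (8 * c) < sc ψ T (aP (3 * c)) (mt ψ o (aP (3 * c))) := by
  obtain ⟨x01, x02, x12, l0, l1, l2, hn⟩ := hc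
  have cP := cnP_ne h1 h3 h5 hD (3 * c) l0
  rw [mP h3 hD o (3 * c) c l0 (by omega), mtV] at *
  rw [nr0]
  have sc1 := scPc (T := T) (3 * c) cP
  rw [nr0] at sc1
  by_cases o0 : o = some (vv ψ (3 * c))
  · rw [if_pos o0] at h; exact absurd rfl h
  by_cases o1 : o = some (vv ψ (3 * c + 1))
  · rw [if_neg o0, if_pos o1, if_neg o0, if_pos o1, sV0, sV1, sPV _ c (by omega), sc1]
    revert hn
    cases T (3 * c) <;> cases T (3 * c + 1) <;> cases T (3 * c + 2) <;> simp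
  by_cases o2 : o = some (vv ψ (3 * c + 2))
  · rw [if_neg o0, if_neg o1, if_pos o2, if_neg o0, if_neg o1, sV0, sV2, sPV _ c (by omega), scPQ]
    revert hn
    cases T (3 * c) <;> cases T (3 * c + 1) <;> cases T (3 * c + 2) <;> simp
  · rw [if_neg o0, if_neg o1, if_neg o2, if_neg o0, if_neg o1, sV0, scVW, sPV _ c (by omega), scPQ]
    revert hn
    cases T (3 * c) <;> cases T (3 * c + 1) <;> cases T (3 * c + 2) <;> simp

lemma core2_1 (h1 : S_BAS) (h3 : S_EV) (h5 : S_INV) (hD : Distinct3 ψ) (c : ℕ) (hc : CF ψ T c)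
    (o : Option ℕ) (h : aP (3 * c + 1) ≠ mt ψ o (8 * c)) :
    sc ψ T (8 * c) (aP (3 * c + 1)) < sc ψ T (8 * c) (mt ψ o (8 * c)) ∨
    sc ψ T (aP (3 * c + 1)) (8 * c) < sc ψ T (aP (3 * c + 1)) (mt ψ o (aP (3 * c + 1))) := by
  obtain ⟨x01, x02, x12, l0, l1, l2, hn⟩ := hc
  have cP := cnP_ne h1 h3 h5 hD (3 * c + 1) l1
  rw [mP h3 hD o (3 * c + 1) c l1 (by omega), mtV] at *
  rw [nr1]
  have sc1 := scPc (T := T) (3 * c + 1) cP
  rw [nr1] at sc1
  by_cases o1 : o = some (vv ψ (3 * c + 1))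
  · have o0 : ¬ o = some (vv ψ (3 * c)) := by
      rw [o1]; intro e; exact x01 (Option.some.inj e).symm
    rw [if_neg o0, if_pos o1] at h; exact absurd rfl h
  by_cases o0 : o = some (vv ψ (3 * c))
  · have o2 : ¬ o = some (vv ψ (3 * c + 2)) := by
      rw [o0]; intro e; exact x02 (Option.some.inj e)
    rw [if_pos o0, if_neg o1, if_neg o2, sV0, sV1, sPV _ c (by omega), scPQ]
    revert hn
    cases T (3 * c) <;> cases T (3 * c + 1) <;> cases T (3 * c + 2) <;> simp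
  by_cases o2 : o = some (vv ψ (3 * c + 2))
  · rw [if_neg o0, if_neg o1, if_pos o2, if_neg o1, if_pos o2, sV1, sV2, sPV _ c (by omega), sc1]
    revert hn
    cases T (3 * c) <;> cases T (3 * c + 1) <;> cases T (3 * c + 2) <;> simp
  · rw [if_neg o0, if_neg o1, if_neg o2, if_neg o1, if_neg o2, sV1, scVW, sPV _ c (by omega), scPQ]
    revert hn
    cases T (3 * c) <;> cases T (3 * c + 1) <;> cases T (3 * c + 2) <;> simp

lemma core2_2 (h1 : S_BAS) (h3 : S_EV) (h5 : S_INV) (hD : Distinct3 ψ) (c : ℕ) (hc : CF ψ T c)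
    (o : Option ℕ) (h : aP (3 * c + 2) ≠ mt ψ o (8 * c)) :
    sc ψ T (8 * c) (aP (3 * c + 2)) < sc ψ T (8 * c) (mt ψ o (8 * c)) ∨
    sc ψ T (aP (3 * c + 2)) (8 * c) < sc ψ T (aP (3 * c + 2)) (mt ψ o (aP (3 * c + 2))) := by
  obtain ⟨x01, x02, x12, l0, l1, l2, hn⟩ := hc
  have cP := cnP_ne h1 h3 h5 hD (3 * c + 2) l2
  rw [mP h3 hD o (3 * c + 2) c l2 (by omega), mtV] at *
  rw [nr2]
  have sc1 := scPc (T := T) (3 * c + 2) cP
  rw [nr2] at sc1
  by_cases o2 : o = some (vv ψ (3 * c + 2))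
  · have o0 : ¬ o = some (vv ψ (3 * c)) := by
      rw [o2]; intro e; exact x02 (Option.some.inj e).symm
    have o1 : ¬ o = some (vv ψ (3 * c + 1)) := by
      rw [o2]; intro e; exact x12 (Option.some.inj e).symm
    rw [if_neg o0, if_neg o1, if_pos o2] at h; exact absurd rfl h
  by_cases o0 : o = some (vv ψ (3 * c))
  · rw [if_pos o0, if_neg o2, if_pos o0, sV0, sV2, sPV _ c (by omega), sc1]
    revert hn
    cases T (3 * c) <;> cases T (3 * c + 1) <;> cases T (3 * c + 2) <;> simp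
  by_cases o1 : o = some (vv ψ (3 * c + 1))
  · rw [if_neg o0, if_pos o1, if_neg o2, if_neg o0, sV1, sV2, sPV _ c (by omega), scPQ]
    revert hn
    cases T (3 * c) <;> cases T (3 * c + 1) <;> cases T (3 * c + 2) <;> simp
  · rw [if_neg o0, if_neg o1, if_neg o2, if_neg o2, if_neg o0, sV2, scVW, sPV _ c (by omega), scPQ]
    revert hn
    cases T (3 * c) <;> cases T (3 * c + 1) <;> cases T (3 * c + 2) <;> simp

/- `aW c - aQ i`; `aW c` is matched with `aQ (pr j)` in the matching of `vv j`. -/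
lemma core3_0 (h1 : S_BAS) (h3 : S_EV) (h5 : S_INV) (hD : Distinct3 ψ) (c : ℕ) (hc : CF ψ T c)
    (o : Option ℕ) (h : aQ (3 * c) ≠ mt ψ o (8 * c + 1)) :
    sc ψ T (8 * c + 1) (aQ (3 * c)) < sc ψ T (8 * c + 1) (mt ψ o (8 * c + 1)) ∨
    sc ψ T (aQ (3 * c)) (8 * c + 1) < sc ψ T (aQ (3 * c)) (mt ψ o (aQ (3 * c))) := by
  obtain ⟨x01, x02, x12, l0, l1, l2, hn⟩ := hc
  have cP := cnQ_ne h1 h3 h5 hD (3 * c) l0
  rw [mQ h3 hD o (3 * c) c l0 (by omega), mtW] at *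
  rw [sQW _ c (by omega), nr0]
  have sc1 := scQc (T := T) (3 * c) cP
  by_cases o1 : o = some (vv ψ (3 * c + 1))
  · have o0 : ¬ o = some (vv ψ (3 * c)) := by
      rw [o1]; intro e; exact x01 (Option.some.inj e).symm
    rw [if_neg o0, if_pos o1] at h; exact absurd rfl h
  by_cases o0 : o = some (vv ψ (3 * c))
  · rw [if_pos o0, if_pos o0, sW0, sW2, sc1]
    revert hn
    cases T (3 * c) <;> cases T (3 * c + 1) <;> cases T (3 * c + 2) <;> simp
  by_cases o2 : o = some (vv ψ (3 * c + 2))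
  · rw [if_neg o0, if_neg o1, if_pos o2, if_neg o0, if_neg o1, sW0, sW1, scQP]
    revert hn
    cases T (3 * c) <;> cases T (3 * c + 1) <;> cases T (3 * c + 2) <;> simp
  · rw [if_neg o0, if_neg o1, if_neg o2, if_neg o0, if_neg o1, sW0, scWV, scQP]
    revert hn
    cases T (3 * c) <;> cases T (3 * c + 1) <;> cases T (3 * c + 2) <;> simp

lemma core3_1 (h1 : S_BAS) (h3 : S_EV) (h5 : S_INV) (hD : Distinct3 ψ) (c : ℕ) (hc : CF ψ T c)
    (o : Option ℕ) (h : aQ (3 * c + 1) ≠ mt ψ o (8 * c + 1)) :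
    sc ψ T (8 * c + 1) (aQ (3 * c + 1)) < sc ψ T (8 * c + 1) (mt ψ o (8 * c + 1)) ∨
    sc ψ T (aQ (3 * c + 1)) (8 * c + 1) <
      sc ψ T (aQ (3 * c + 1)) (mt ψ o (aQ (3 * c + 1))) := by
  obtain ⟨x01, x02, x12, l0, l1, l2, hn⟩ := hc
  have cP := cnQ_ne h1 h3 h5 hD (3 * c + 1) l1
  rw [mQ h3 hD o (3 * c + 1) c l1 (by omega), mtW] at *
  rw [sQW _ c (by omega), nr1]
  have sc1 := scQc (T := T) (3 * c + 1) cP
  by_cases o2 : o = some (vv ψ (3 * c + 2))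
  · have o0 : ¬ o = some (vv ψ (3 * c)) := by
      rw [o2]; intro e; exact x02 (Option.some.inj e).symm
    have o1 : ¬ o = some (vv ψ (3 * c + 1)) := by
      rw [o2]; intro e; exact x12 (Option.some.inj e).symm
    rw [if_neg o0, if_neg o1, if_pos o2] at h; exact absurd rfl h
  by_cases o0 : o = some (vv ψ (3 * c))
  · have o1 : ¬ o = some (vv ψ (3 * c + 1)) := by
      rw [o0]; intro e; exact x01 (Option.some.inj e)
    rw [if_pos o0, if_neg o1, if_neg o2, sW1, sW2, scQP]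
    revert hn
    cases T (3 * c) <;> cases T (3 * c + 1) <;> cases T (3 * c + 2) <;> simp
  by_cases o1 : o = some (vv ψ (3 * c + 1))
  · rw [if_neg o0, if_pos o1, if_pos o1, sW0, sW1, sc1]
    revert hn
    cases T (3 * c) <;> cases T (3 * c + 1) <;> cases T (3 * c + 2) <;> simp
  · rw [if_neg o0, if_neg o1, if_neg o2, if_neg o1, if_neg o2, sW1, scWV, scQP]
    revert hn
    cases T (3 * c) <;> cases T (3 * c + 1) <;> cases T (3 * c + 2) <;> simp

lemma core3_2 (h1 : S_BAS) (h3 : S_EV) (h5 : S_INV) (hD : Distinct3 ψ) (c : ℕ) (hc : CF ψ T c)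
    (o : Option ℕ) (h : aQ (3 * c + 2) ≠ mt ψ o (8 * c + 1)) :
    sc ψ T (8 * c + 1) (aQ (3 * c + 2)) < sc ψ T (8 * c + 1) (mt ψ o (8 * c + 1)) ∨
    sc ψ T (aQ (3 * c + 2)) (8 * c + 1) <
      sc ψ T (aQ (3 * c + 2)) (mt ψ o (aQ (3 * c + 2))) := by
  obtain ⟨x01, x02, x12, l0, l1, l2, hn⟩ := hc
  have cP := cnQ_ne h1 h3 h5 hD (3 * c + 2) l2
  rw [mQ h3 hD o (3 * c + 2) c l2 (by omega), mtW] at *
  rw [sQW _ c (by omega), nr2]
  have sc1 := scQc (T := T) (3 * c + 2) cP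
  by_cases o0 : o = some (vv ψ (3 * c))
  · rw [if_pos o0] at h; exact absurd rfl h
  by_cases o1 : o = some (vv ψ (3 * c + 1))
  · have o2 : ¬ o = some (vv ψ (3 * c + 2)) := by
      rw [o1]; intro e; exact x12 (Option.some.inj e)
    rw [if_neg o0, if_pos o1, if_neg o2, if_neg o0, sW0, sW2, scQP]
    revert hn
    cases T (3 * c) <;> cases T (3 * c + 1) <;> cases T (3 * c + 2) <;> simp
  by_cases o2 : o = some (vv ψ (3 * c + 2))
  · rw [if_neg o0, if_neg o1, if_pos o2, if_pos o2, sW1, sW2, sc1]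
    revert hn
    cases T (3 * c) <;> cases T (3 * c + 1) <;> cases T (3 * c + 2) <;> simp
  · rw [if_neg o0, if_neg o1, if_neg o2, if_neg o2, if_neg o0, sW2, scWV, scQP]
    revert hn
    cases T (3 * c) <;> cases T (3 * c + 1) <;> cases T (3 * c + 2) <;> simp

lemma pos (h1 : S_BAS) (h3 : S_EV) (h4 : S_KIND) (h5 : S_INV) (hD : Distinct3 ψ)
    (o : Option ℕ) (a : ℕ) (ha : a < 8 * ψ.length) : 2 ≤ sc ψ T a (mt ψ o a) := by
  have hNO := (h1 ψ).1
  rcases h4 ψ.length a ha with ⟨c, hc, rfl⟩ | ⟨c, hc, rfl⟩ | ⟨i, hi, rfl⟩ | ⟨i, hi, rfl⟩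
  · show 2 ≤ sc ψ T (8 * c) (mt ψ o (8 * c))
    rw [mtV]
    split_ifs
    · rw [sV0]; split_ifs <;> omega
    · rw [sV1]; split_ifs <;> omega
    · rw [sV2]; split_ifs <;> omega
    · rw [scVW]; omega
  · show 2 ≤ sc ψ T (8 * c + 1) (mt ψ o (8 * c + 1))
    rw [mtW]
    split_ifs
    · rw [sW2]; split_ifs <;> omega
    · rw [sW0]; split_ifs <;> omega
    · rw [sW1]; split_ifs <;> omega
    · rw [scWV]; omega
  · have hi' : i < NO ψ := by omega
    rw [mP h3 hD o i _ hi' rfl]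
    split_ifs
    · rw [sPV i _ rfl]; split_ifs <;> omega
    · rw [scPc i (cnP_ne h1 h3 h5 hD i hi')]; split_ifs <;> omega
    · rw [scPQ]; omega
  · have hi' : i < NO ψ := by omega
    rw [mQ h3 hD o i _ hi' rfl]
    split_ifs
    · rw [scQc i (cnQ_ne h1 h3 h5 hD i hi')]; split_ifs <;> omega
    · rw [sQW i _ rfl]; split_ifs <;> omega
    · rw [scQP]; omega

lemma core2 (h1 : S_BAS) (h3 : S_EV) (h5 : S_INV) (hD : Distinct3 ψ) (c : ℕ) (hc : CF ψ T c)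
    (o : Option ℕ) (i : ℕ) (hi : i / 3 = c) (h : aP i ≠ mt ψ o (8 * c)) :
    sc ψ T (8 * c) (aP i) < sc ψ T (8 * c) (mt ψ o (8 * c)) ∨
    sc ψ T (aP i) (8 * c) < sc ψ T (aP i) (mt ψ o (aP i)) := by
  have : i = 3 * c ∨ i = 3 * c + 1 ∨ i = 3 * c + 2 := by omega
  rcases this with rfl | rfl | rfl
  · exact core2_0 h1 h3 h5 hD c hc o h
  · exact core2_1 h1 h3 h5 hD c hc o h
  · exact core2_2 h1 h3 h5 hD c hc o h

lemma core3 (h1 : S_BAS) (h3 : S_EV) (h5 : S_INV) (hD : Distinct3 ψ) (c : ℕ) (hc : CF ψ T c)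
    (o : Option ℕ) (i : ℕ) (hi : i / 3 = c) (h : aQ i ≠ mt ψ o (8 * c + 1)) :
    sc ψ T (8 * c + 1) (aQ i) < sc ψ T (8 * c + 1) (mt ψ o (8 * c + 1)) ∨
    sc ψ T (aQ i) (8 * c + 1) < sc ψ T (aQ i) (mt ψ o (aQ i)) := by
  have : i = 3 * c ∨ i = 3 * c + 1 ∨ i = 3 * c + 2 := by omega
  rcases this with rfl | rfl | rfl
  · exact core3_0 h1 h3 h5 hD c hc o h
  · exact core3_1 h1 h3 h5 hD c hc o h
  · exact core3_2 h1 h3 h5 hD c hc o h

/-- The edges. -/
lemma edges (a b : ℕ) (hNO : NO ψ = 3 * ψ.length) (h4 : S_KIND) (ha : a < 8 * ψ.length)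
    (h : sc ψ T a b ≠ 0) :
    (∃ c < ψ.length, (a = 8 * c ∧ b = 8 * c + 1) ∨ (b = 8 * c ∧ a = 8 * c + 1)) ∨
    (∃ c < ψ.length, ∃ i, i / 3 = c ∧ ((a = 8 * c ∧ b = aP i) ∨ (b = 8 * c ∧ a = aP i))) ∨
    (∃ c < ψ.length, ∃ i, i / 3 = c ∧
      ((a = 8 * c + 1 ∧ b = aQ i) ∨ (b = 8 * c + 1 ∧ a = aQ i))) ∨
    (∃ i < NO ψ, (a = aP i ∧ b = aQ i) ∨ (b = aP i ∧ a = aQ i)) ∨
    ∃ d, E ψ T a b d := by
  rcases h4 ψ.length a ha with ⟨c, hc, rfl⟩ | ⟨c, hc, rfl⟩ | ⟨i, hi, rfl⟩ | ⟨i, hi, rfl⟩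
  · rcases scV_ne c b h with rfl | ⟨r, hr, rfl⟩
    · exact Or.inl ⟨c, hc, Or.inl ⟨rfl, rfl⟩⟩
    · exact Or.inr (Or.inl ⟨c, hc, 3 * c + r, by omega, Or.inl ⟨rfl, by unfold aP; omega⟩⟩)
  · rcases scW_ne c b h with rfl | ⟨r, hr, rfl⟩
    · exact Or.inl ⟨c, hc, Or.inr ⟨rfl, rfl⟩⟩
    · exact Or.inr (Or.inr (Or.inl
        ⟨c, hc, 3 * c + r, by omega, Or.inl ⟨rfl, by unfold aQ; omega⟩⟩))
  · have hi' : i < NO ψ := by omega
    rw [scP_def] at h
    by_cases e1 : b = aQ i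
    · exact Or.inr (Or.inr (Or.inr (Or.inl ⟨i, hi', Or.inl ⟨rfl, e1⟩⟩)))
    rw [if_neg e1] at h
    by_cases e2 : b = aV (i / 3)
    · exact Or.inr (Or.inl ⟨i / 3, by omega, i, rfl, Or.inr ⟨e2, rfl⟩⟩)
    rw [if_neg e2] at h
    by_cases e3 : b = cnP ψ i
    · exact Or.inr (Or.inr (Or.inr (Or.inr ⟨_, Or.inl ⟨i, hi', rfl, e3, rfl⟩⟩)))
    rw [if_neg e3] at h
    exact absurd rfl h
  · have hi' : i < NO ψ := by omega
    rw [scQ_def] at h
    by_cases e1 : b = aP i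
    · exact Or.inr (Or.inr (Or.inr (Or.inl ⟨i, hi', Or.inr ⟨e1, rfl⟩⟩)))
    rw [if_neg e1] at h
    by_cases e3 : b = cnQ ψ i
    · exact Or.inr (Or.inr (Or.inr (Or.inr ⟨_, Or.inr ⟨i, hi', rfl, e3, rfl⟩⟩)))
    rw [if_neg e3] at h
    by_cases e2 : b = aW (i / 3)
    · exact Or.inr (Or.inr (Or.inl ⟨i / 3, by omega, i, rfl, Or.inr ⟨e2, rfl⟩⟩))
    rw [if_neg e2] at h
    exact absurd rfl h

/-- The scores exclude blocking pairs. -/
theorem scT (h1 : S_BAS) (h2 : S_OCC) (h3 : S_EV) (h4 : S_KIND) (h5 : S_INV) : S_SC := by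
  intro ψ τ T hD hT hn o a ha b hb hab hbm
  have hNO := (h1 ψ).1
  have hinv := h5 ψ hD o
  have ham : a ≠ mt ψ o b := by
    intro e
    apply hbm
    rw [e, hinv.inv b hb]
  have pa := pos (T := T) h1 h3 h4 h5 hD o a ha
  have pb := pos (T := T) h1 h3 h4 h5 hD o b hb
  by_cases hz : sc ψ T a b = 0
  · left; omega
  have hcf : ∀ c < ψ.length, CF ψ T c := fun c hc => cf h1 hD c hc (hn c hc)
  rcases edges a b hNO h4 ha hz with ⟨c, hc, ⟨rfl, rfl⟩ | ⟨rfl, rfl⟩⟩ |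
      ⟨c, hc, i, hi, ⟨rfl, rfl⟩ | ⟨rfl, rfl⟩⟩ | ⟨c, hc, i, hi, ⟨rfl, rfl⟩ | ⟨rfl, rfl⟩⟩ |
      ⟨i, hi, ⟨rfl, rfl⟩ | ⟨rfl, rfl⟩⟩ | ⟨d, hE⟩
  · rw [scVW, scWV]; exact core1 c o hbm
  · rw [scVW, scWV]; exact (core1 c o ham).symm
  · exact core2 h1 h3 h5 hD c (hcf c hc) o i hi hbm
  · exact (core2 h1 h3 h5 hD c (hcf c hc) o i hi ham).symm
  · exact core3 h1 h3 h5 hD c (hcf c hc) o i hi hbm
  · exact (core3 h1 h3 h5 hD c (hcf c hc) o i hi ham).symm
  · rw [scPQ, scQP]; exact core4 h1 h3 h5 hD i hi o hbm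
  · rw [scPQ, scQP]; exact (core4 h1 h3 h5 hD i hi o ham).symm
  · cases d
    · right
      have := E3 h1 h2 hD hT a b false hE
      exact down h1 h3 h5 hD o b a this ham
    · left
      exact down h1 h3 h5 hD o a b hE hbm



end Pool.Agent.W848.SRR
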